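import Pool.Agent.H466.HP.Stm

/-!
# HP-Z1: local count of the zeros of `ξ`
-/

set_option autoImplicit false

open Complex MeasureTheory Filter Topology Set
open scoped ComplexConjugate

namespace Pool.Agent.H354.HP

open H370 Pool.Agent.NH13 Pool.Agent.NH13.UV
open Pool.Agent.H862 (VP.t_PFC)
open Pool.Agent.H862.VK
open Pool.Agent.H466.HP

/-- the zeros are in the strip -/
lemma strip {b : ℂ} (hb : Yz b = 0) : |b.re| < 1 / 2 := by
  rw [abs_lt]
  constructor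
  · by_contra hcon
    push Not at hcon
    have h1 : Yz (-b) = 0 := by rw [Yz_neg]; exact hb
    exact Yz_ne (by rw [neg_re]; linarith) h1
  · by_contra hcon
    push Not at hcon
    exact Yz_ne hcon hb

/-- `Yz` does not vanish off the strip -/
lemma ne_off {z : ℂ} (hz : 1 / 2 ≤ |z.re|) : Yz z ≠ 0 :=
  fun h => absurd (strip h) (not_lt.mpr hz)

/-- partial fractions -/
lemma pfr {z w : ℂ} (hz : Yz z ≠ 0) (hw : Yz w ≠ 0) :
    HasSum (fun a : Zr => (mu a : ℂ) * (1 / (z - (a : ℂ)) - 1 / (w - (a : ℂ)))) (P z - P w) := by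
  have h := VP.t_PFC Yz Yz_diff Yz_sym Yz_gr (fun s hs => (strip hs).le) z w hz hw
  refine h.congr_fun fun a => ?_
  unfold mu
  push_cast
  rfl

lemma mu_pos (a : Zr) : 0 < mu a := by
  have h2 : analyticOrderAt Yz (a : ℂ) ≠ 0 := by
    rw [(Yz_diff.analyticAt (a : ℂ)).analyticOrderAt_ne_zero]
    exact a.2
  have h3 : analyticOrderAt Yz (a : ℂ) ≠ ⊤ := by
    intro h
    rw [analyticOrderAt_eq_top] at h
    have han : AnalyticOnNhd ℂ Yz Set.univ := fun z _ => Yz_diff.analyticAt z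
    exact Yz_ne (z := 1) (by norm_num) (han.eqOn_zero_of_preconnected_of_eventuallyEq_zero
      isPreconnected_univ (Set.mem_univ (a : ℂ)) h (Set.mem_univ 1))
  have h4 : 0 < analyticOrderNatAt Yz (a : ℂ) := by
    rw [Nat.pos_iff_ne_zero]
    intro h
    unfold analyticOrderNatAt at h
    rcases (ENat.toNat_eq_zero).1 h with h | h
    · exact h2 h
    · exact h3 h
  unfold mu
  exact_mod_cast h4

/-- the sum of the Poisson kernels -/
lemma pos_sum (t : ℝ) :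
    HasSum (fun a : Zr => mu a * ((1 - (a : ℂ).re) / ((1 - (a : ℂ).re) ^ 2 + (t - (a : ℂ).im) ^ 2) +
      (1 + (a : ℂ).re) / ((1 + (a : ℂ).re) ^ 2 + (t - (a : ℂ).im) ^ 2)))
      (2 * (P ⟨1, t⟩).re) := by
  have h := pfr (z := ⟨1, t⟩) (w := ⟨-1, t⟩) (ne_off (by norm_num)) (ne_off (by norm_num))
  have e1 : P ⟨-1, t⟩ = -(conj (P ⟨1, t⟩)) := by
    have h2 := yh.logDeriv_rf Yz_diff Yz_sym (⟨1, t⟩ : ℂ)
    have e : -(conj (⟨1, t⟩ : ℂ)) = ⟨-1, t⟩ := by
      apply Complex.ext <;> simp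
    rw [e] at h2
    exact h2
  rw [e1] at h
  have h3 := Complex.reCLM.hasSum h
  have e2 : Complex.reCLM (P ⟨1, t⟩ - -(conj (P ⟨1, t⟩))) = 2 * (P ⟨1, t⟩).re := by
    rw [Complex.reCLM_apply, Complex.sub_re, Complex.neg_re, Complex.conj_re]
    ring
  rw [e2] at h3
  refine h3.congr_fun fun a => ?_
  rw [Complex.reCLM_apply, Complex.re_ofReal_mul, Complex.sub_re]
  congr 1
  have hs : ∀ x : ℝ, (1 / ((⟨x, t⟩ : ℂ) - (a : ℂ))).re =
      (x - (a : ℂ).re) / ((x - (a : ℂ).re) ^ 2 + (t - (a : ℂ).im) ^ 2) := by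
    intro x
    rw [one_div, Complex.inv_re, Complex.normSq_apply, Complex.sub_re, Complex.sub_im]
    simp only
    congr 1
    ring
  rw [hs, hs]
  have e3 : (-1 - (a : ℂ).re) ^ 2 = (1 + (a : ℂ).re) ^ 2 := by ring
  rw [e3]
  ring

lemma kernel_ge {β η : ℝ} (h : |β| < 1 / 2) :
    4 / 9 * (1 / (1 + η ^ 2)) ≤ (1 - β) / ((1 - β) ^ 2 + η ^ 2) + (1 + β) / ((1 + β) ^ 2 + η ^ 2) := by
  have hk : ∀ x : ℝ, 1 / 2 ≤ x → x ≤ 3 / 2 → 2 / 9 * (1 / (1 + η ^ 2)) ≤ x / (x ^ 2 + η ^ 2) := by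
    intro x h1 h2
    have h3 : 0 < 1 + η ^ 2 := by positivity
    have h4 : 0 < x ^ 2 + η ^ 2 := by positivity
    rw [mul_one_div, div_le_div_iff₀ h3 h4]
    nlinarith [sq_nonneg η]
  have hb := abs_lt.mp h
  have h1 := hk (1 - β) (by linarith) (by linarith)
  have h2 := hk (1 + β) (by linarith) (by linarith)
  linarith

/-- the bound of the sum over all zeros -/
theorem z1s : ∃ C : ℝ, 0 < C ∧ ∀ t : ℝ,
    Summable (fun b : Zr => mu b / (1 + (t - (b : ℂ).im) ^ 2)) ∧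
      ∑' b : Zr, mu b / (1 + (t - (b : ℂ).im) ^ 2) ≤ C * Real.log (2 + |t|) := by
  obtain ⟨C, hC⟩ := Yz_log
  refine ⟨9 * (|C| + 1), by positivity, fun t => ?_⟩
  have hs := pos_sum t
  have hle : ∀ a : Zr, mu a / (1 + (t - (a : ℂ).im) ^ 2) ≤ 9 / 4 *
      (mu a * ((1 - (a : ℂ).re) / ((1 - (a : ℂ).re) ^ 2 + (t - (a : ℂ).im) ^ 2) +
      (1 + (a : ℂ).re) / ((1 + (a : ℂ).re) ^ 2 + (t - (a : ℂ).im) ^ 2))) := by
    intro a
    have h1 := kernel_ge (η := t - (a : ℂ).im) (strip a.2)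
    have h2 := mul_le_mul_of_nonneg_left h1 (mu_pos a).le
    have h3 : mu a / (1 + (t - (a : ℂ).im) ^ 2) =
        9 / 4 * (mu a * (4 / 9 * (1 / (1 + (t - (a : ℂ).im) ^ 2)))) := by
      rw [div_eq_mul_one_div]
      ring
    rw [h3]
    linarith
  have hnn : ∀ a : Zr, 0 ≤ mu a / (1 + (t - (a : ℂ).im) ^ 2) := fun a =>
    div_nonneg (mu_pos a).le (by positivity)
  have hsum := Summable.of_nonneg_of_le hnn hle (hs.summable.mul_left (9 / 4))
  refine ⟨hsum, ?_⟩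
  have h1 := hsum.tsum_le_tsum hle (hs.summable.mul_left (9 / 4))
  rw [tsum_mul_left, hs.tsum_eq] at h1
  refine h1.trans ?_
  have hn : ‖(⟨1, t⟩ : ℂ)‖ ≤ 1 + |t| := by
    have := Complex.norm_le_abs_re_add_abs_im (⟨1, t⟩ : ℂ)
    simpa using this
  have hlog : Real.log (2 + ‖(⟨1, t⟩ : ℂ)‖) ≤ 2 * Real.log (2 + |t|) := by
    have e : 2 * Real.log (2 + |t|) = Real.log ((2 + |t|) ^ 2) := by
      rw [Real.log_pow]
      norm_num
    rw [e]
    apply Real.log_le_log (by positivity)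
    nlinarith [abs_nonneg t]
  have hl0 : 0 ≤ Real.log (2 + |t|) := Real.log_nonneg (by linarith [abs_nonneg t])
  have hP : (P ⟨1, t⟩).re ≤ (|C| + 1) * (2 * Real.log (2 + |t|)) := by
    have h2 : (P ⟨1, t⟩).re ≤ ‖P ⟨1, t⟩‖ := Complex.re_le_norm _
    have h3 : ‖P ⟨1, t⟩‖ ≤ C * Real.log (2 + ‖(⟨1, t⟩ : ℂ)‖) := hC _ (by norm_num)
    have h4 : 0 ≤ Real.log (2 + ‖(⟨1, t⟩ : ℂ)‖) :=
      Real.log_nonneg (by linarith [norm_nonneg (⟨1, t⟩ : ℂ)])
    calc (P ⟨1, t⟩).re ≤ C * Real.log (2 + ‖(⟨1, t⟩ : ℂ)‖) := h2.trans h3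
      _ ≤ (|C| + 1) * Real.log (2 + ‖(⟨1, t⟩ : ℂ)‖) := by
        apply mul_le_mul_of_nonneg_right _ h4
        linarith [le_abs_self C]
      _ ≤ _ := by gcongr
  linarith

theorem z1 : S_Z1 := by
  obtain ⟨C, hC, h⟩ := z1s
  refine ⟨C, hC, fun t B hB => ?_⟩
  classical
  have h1 := h t
  have e := Finset.sum_subtype_of_mem (s := B) (p := fun b => Yz b = 0)
    (fun b => mu b / (1 + (t - b.im) ^ 2)) hB
  rw [← e]
  refine (h1.1.sum_le_tsum _ fun a _ => ?_).trans h1.2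
  exact div_nonneg (mu_pos a).le (by positivity)

/-- the zeros are countable -/
theorem zr_countable : Countable Zr := by
  obtain ⟨C, hC, h⟩ := z1s
  have h1 := (h 0).1.countable_support
  have h2 : Function.support (fun b : Zr => mu b / (1 + (0 - (b : ℂ).im) ^ 2)) = Set.univ := by
    ext a
    simp only [Function.mem_support, Set.mem_univ, iff_true]
    exact (div_pos (mu_pos a) (by positivity)).ne'
  rw [h2] at h1
  exact Set.countable_univ_iff.mp h1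

end Pool.Agent.H354.HP

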