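import Pool.Agent.H354.HP.Z1

/-!
# HP-E1: `P - S` is Lipschitz on the cone
-/

set_option autoImplicit false

open Complex MeasureTheory Filter Topology Set
open scoped ComplexConjugate

namespace Pool.Agent.H354.HP

open Pool.Agent.H862.VK
open Pool.Agent.H466.HP

/-- the distance of a point of the cone from the zeros -/
lemma dist_zero {t y0 x1 M : ℝ} (hM : 1 ≤ M) (hy : 0 < y0) (hCF : CF t y0 M) {z : ℂ}
    (hz : z ∈ Kt t y0 x1 M) {b : ℂ} (hb : Yz b = 0) :
    (z.re + |b.im - t|) / (4 * M) ≤ ‖z - b‖ := by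
  obtain ⟨h1, h2, h3⟩ := hz
  have hx : 0 < z.re := lt_of_lt_of_le hy h1
  have hη := abs_nonneg (b.im - t)
  rw [div_le_iff₀ (by positivity)]
  rcases le_or_gt (2 * M * z.re) |b.im - t| with hc | hc
  · have h4 : |b.im - t| / 2 ≤ ‖z - b‖ := by
      have h5 : |(z - b).im| ≤ ‖z - b‖ := Complex.abs_im_le_norm _
      have h6 : |b.im - t| ≤ |(z - b).im| + |z.im - t| := by
        have e : b.im - t = -(z - b).im + (z.im - t) := by
          rw [Complex.sub_im]
          ring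
        rw [e]
        refine (abs_add_le _ _).trans ?_
        rw [abs_neg]
      linarith
    have h7 : z.re ≤ |b.im - t| / 2 := by nlinarith
    nlinarith [norm_nonneg (z - b)]
  · have h4 : |b.re| ≤ z.re / 4 := by
      rcases hCF b hb with h5 | h5
      · linarith
      · refine h5.trans ?_
        rw [div_le_iff₀ (by positivity)]
        linarith
    have h5 : 3 / 4 * z.re ≤ ‖z - b‖ := by
      have h6 : |(z - b).re| ≤ ‖z - b‖ := Complex.abs_re_le_norm _
      have h7 : (z - b).re ≤ |(z - b).re| := le_abs_self _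
      rw [Complex.sub_re] at h7 h6
      have h8 := le_abs_self b.re
      linarith
    nlinarith [norm_nonneg (z - b)]

lemma exp_eighth : Real.exp (1 / 8) ≤ 2 := by
  have h1 : Real.exp (1 / 8) ≤ Real.exp 1 ^ (1 / 8 : ℝ) := by
    rw [← Real.exp_mul]
    norm_num
  have h2 : Real.exp 1 ^ (1 / 8 : ℝ) ≤ 3 ^ (1 / 8 : ℝ) := by
    apply Real.rpow_le_rpow (Real.exp_pos 1).le (by linarith [Real.exp_one_lt_d9]) (by norm_num)
  have h3 : (3 : ℝ) ^ (1 / 8 : ℝ) ≤ 2 := by
    have : (3 : ℝ) ^ (1 / 8 : ℝ) ≤ (2 ^ (8 : ℝ)) ^ (1 / 8 : ℝ) := by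
      apply Real.rpow_le_rpow (by norm_num) (by norm_num) (by norm_num)
    rw [← Real.rpow_mul (by norm_num)] at this
    norm_num at this
    norm_num
    exact this
  linarith

lemma exp_five : Real.exp (5 / 8) ≤ 2 := by
  have h1 : Real.exp (5 / 8) ≤ Real.exp (Real.log 2) := by
    apply Real.exp_le_exp.mpr
    have := Real.log_two_gt_d9
    norm_num at this ⊢
    linarith
  rwa [Real.exp_log (by norm_num)] at h1

lemma gw_norm (t : ℝ) (b : ℂ) : ‖gw t b‖ = Real.exp ((b.re ^ 2 - (b.im - t) ^ 2) / 2) := by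
  unfold gw
  rw [Complex.norm_exp]
  congr 1
  have e : (b - I * t) ^ 2 / 2 = (((b.re ^ 2 - (b.im - t) ^ 2) / 2 : ℝ) : ℂ) +
      ((b.re * (b.im - t) : ℝ) : ℂ) * I := by
    apply Complex.ext
    · simp [sq]
    · simp [sq]
      ring
  rw [e, Complex.add_re, Complex.ofReal_re, Complex.re_ofReal_mul, Complex.I_re, mul_zero,
    add_zero]

lemma gw_le {t : ℝ} {b : ℂ} (hb : |b.re| < 1 / 2) : ‖gw t b‖ ≤ 4 / (1 + (t - b.im) ^ 2) := by
  rw [gw_norm]
  have h1 : b.re ^ 2 ≤ 1 / 4 := by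
    have := abs_lt.mp hb
    nlinarith
  have h2 : Real.exp ((b.re ^ 2 - (b.im - t) ^ 2) / 2) ≤
      Real.exp (1 / 8) * Real.exp (-((b.im - t) ^ 2 / 2)) := by
    rw [← Real.exp_add]
    apply Real.exp_le_exp.mpr
    linarith
  have h3 : Real.exp (-((b.im - t) ^ 2 / 2)) ≤ 2 / (1 + (t - b.im) ^ 2) := by
    rw [Real.exp_neg, le_div_iff₀ (by positivity)]
    have h4 := Real.add_one_le_exp ((b.im - t) ^ 2 / 2)
    rw [inv_mul_le_iff₀ (Real.exp_pos _)]
    nlinarith
  refine h2.trans ?_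
  calc Real.exp (1 / 8) * Real.exp (-((b.im - t) ^ 2 / 2)) ≤ 2 * (2 / (1 + (t - b.im) ^ 2)) := by
        gcongr
        exact exp_eighth
    _ = 4 / (1 + (t - b.im) ^ 2) := by ring

/-- the bound of one term -/
lemma term_le {t y0 x1 M : ℝ} (hM : 1 ≤ M) (hy : 0 < y0) (hCF : CF t y0 M) {z z' : ℂ}
    (hz : z ∈ Kt t y0 x1 M) (hz' : z' ∈ Kt t y0 x1 M) {b : ℂ} (hb : Yz b = 0) :
    ‖(1 - gw t b) * ((z' - z) / ((z - b) * (z' - b)))‖ ≤
      96 * M ^ 2 * ‖z' - z‖ * (1 / (1 + (t - b.im) ^ 2)) := by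
  have hd := dist_zero hM hy hCF hz hb
  have hd' := dist_zero hM hy hCF hz' hb
  have hx : 0 < z.re := lt_of_lt_of_le hy hz.1
  have hx' : 0 < z'.re := lt_of_lt_of_le hy hz'.1
  obtain ⟨η, hη⟩ : ∃ η, η = |b.im - t| := ⟨_, rfl⟩
  have hη0 : 0 ≤ η := by rw [hη]; exact abs_nonneg _
  have hη2 : (t - b.im) ^ 2 = η ^ 2 := by
    rw [hη, sq_abs]
    ring
  rw [← hη] at hd hd'
  rw [hη2]
  have hM0 : 0 < M := by linarith
  have hA : 0 < (z.re + η) / (4 * M) := by positivity
  have hA' : 0 < (z'.re + η) / (4 * M) := by positivity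
  have hn : ‖(z' - z) / ((z - b) * (z' - b))‖ ≤
      ‖z' - z‖ * (16 * M ^ 2 / ((z.re + η) * (z'.re + η))) := by
    rw [norm_div, norm_mul, div_eq_mul_one_div]
    apply mul_le_mul_of_nonneg_left _ (norm_nonneg _)
    have e : 16 * M ^ 2 / ((z.re + η) * (z'.re + η)) =
        1 / ((z.re + η) / (4 * M) * ((z'.re + η) / (4 * M))) := by
      field_simp
      ring
    rw [e]
    apply one_div_le_one_div_of_le (by positivity)
    exact mul_le_mul hd hd' hA'.le (norm_nonneg _)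
  rw [norm_mul]
  rcases le_or_gt 1 η with h1 | h1
  · have h2 : ‖1 - gw t b‖ ≤ 3 := by
      have h3 : ‖gw t b‖ ≤ 2 := by
        refine (gw_le (strip hb)).trans ?_
        rw [hη2, div_le_iff₀ (by positivity)]
        nlinarith
      calc ‖1 - gw t b‖ ≤ ‖(1 : ℂ)‖ + ‖gw t b‖ := norm_sub_le _ _
        _ ≤ 1 + 2 := by rw [norm_one]; linarith
        _ = 3 := by norm_num
    have h4 : 16 * M ^ 2 / ((z.re + η) * (z'.re + η)) ≤ 16 * M ^ 2 / η ^ 2 := by
      apply div_le_div_of_nonneg_left (by positivity) (by positivity)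
      nlinarith
    have h5 : 16 * M ^ 2 / η ^ 2 ≤ 32 * M ^ 2 * (1 / (1 + η ^ 2)) := by
      rw [mul_one_div, div_le_div_iff₀ (by positivity) (by positivity)]
      have : 1 ≤ η ^ 2 := by nlinarith
      have h6 : 0 ≤ M ^ 2 := by positivity
      nlinarith
    calc ‖1 - gw t b‖ * ‖(z' - z) / ((z - b) * (z' - b))‖ ≤
          3 * (‖z' - z‖ * (32 * M ^ 2 * (1 / (1 + η ^ 2)))) := by
          apply mul_le_mul h2 (hn.trans _) (norm_nonneg _) (by norm_num)
          apply mul_le_mul_of_nonneg_left (h4.trans h5) (norm_nonneg _)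
      _ = 96 * M ^ 2 * ‖z' - z‖ * (1 / (1 + η ^ 2)) := by ring
  · -- the close zeros
    have hβ : b.re ^ 2 ≤ (z.re + η) * (z'.re + η) := by
      have hp : η ^ 2 ≤ (z.re + η) * (z'.re + η) := by nlinarith
      rcases hCF b hb with h5 | h5
      · have h6 : |b.re| ≤ z.re := by linarith [hz.1]
        have h7 : |b.re| ≤ z'.re := by linarith [hz'.1]
        rw [← sq_abs b.re]
        nlinarith [abs_nonneg b.re]
      · have h6 : |b.re| ≤ η := by
          refine h5.trans ?_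
          rw [← hη, div_le_iff₀ (by positivity)]
          nlinarith
        rw [← sq_abs b.re]
        nlinarith [abs_nonneg b.re]
    have hs : b.re ^ 2 + η ^ 2 ≤ 2 * ((z.re + η) * (z'.re + η)) := by
      have hp : η ^ 2 ≤ (z.re + η) * (z'.re + η) := by nlinarith
      linarith
    obtain ⟨w, hw⟩ : ∃ w, w = (b - I * t) ^ 2 / 2 := ⟨_, rfl⟩
    have hwn : ‖w‖ = (b.re ^ 2 + η ^ 2) / 2 := by
      rw [hw, norm_div, norm_pow, ← Complex.normSq_eq_norm_sq, Complex.normSq_apply]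
      have e1 : (b - I * t).re = b.re := by simp
      have e2 : (b - I * t).im = b.im - t := by simp
      rw [e1, e2, hη, sq_abs]
      simp only [Complex.norm_ofNat]
      ring
    have hw1 : ‖w‖ ≤ 5 / 8 := by
      rw [hwn]
      have h5 := abs_lt.mp (strip hb)
      nlinarith
    have hgw : ‖1 - gw t b‖ ≤ 2 * ((z.re + η) * (z'.re + η)) := by
      have h5 : ‖cexp w - 1‖ ≤ ‖w‖ * Real.exp ‖w‖ := by
        have h6 := Complex.norm_exp_sub_sum_le_norm_mul_exp w 1
        simpa using h6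
      have h7 : Real.exp ‖w‖ ≤ 2 := (Real.exp_le_exp.mpr hw1).trans exp_five
      have h8 : ‖1 - gw t b‖ = ‖cexp w - 1‖ := by
        rw [norm_sub_rev, hw]
        rfl
      rw [h8]
      calc ‖cexp w - 1‖ ≤ ‖w‖ * Real.exp ‖w‖ := h5
        _ ≤ ‖w‖ * 2 := by gcongr
        _ = b.re ^ 2 + η ^ 2 := by rw [hwn]; ring
        _ ≤ _ := hs
    have hpos : 0 < (z.re + η) * (z'.re + η) := by positivity
    calc ‖1 - gw t b‖ * ‖(z' - z) / ((z - b) * (z' - b))‖ ≤
          2 * ((z.re + η) * (z'.re + η)) *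
            (‖z' - z‖ * (16 * M ^ 2 / ((z.re + η) * (z'.re + η)))) :=
          mul_le_mul hgw hn (norm_nonneg _) (by positivity)
      _ = 32 * M ^ 2 * ‖z' - z‖ := by field_simp; ring
      _ ≤ 96 * M ^ 2 * ‖z' - z‖ * (1 / (1 + η ^ 2)) := by
          have h5 : 1 / 2 ≤ 1 / (1 + η ^ 2) := by
            apply one_div_le_one_div_of_le (by positivity)
            nlinarith
          have h6 : 0 ≤ M ^ 2 * ‖z' - z‖ := by positivity
          nlinarith

/-- the series `S` converges absolutely -/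
lemma S_summable {t y0 x1 M : ℝ} (hM : 1 ≤ M) (hy : 0 < y0) (hCF : CF t y0 M) {z : ℂ}
    (hz : z ∈ Kt t y0 x1 M) : Summable fun b : Zr => (mu b : ℂ) * gw t b / (z - (b : ℂ)) := by
  obtain ⟨C, hC, h⟩ := z1s
  have hx : 0 < z.re := lt_of_lt_of_le hy hz.1
  have hs := (h t).1.mul_left (16 * M / z.re)
  refine Summable.of_norm_bounded hs fun b => ?_
  have hd := dist_zero hM hy hCF hz b.2
  have hd2 : z.re / (4 * M) ≤ ‖z - (b : ℂ)‖ := by
    refine le_trans ?_ hd
    gcongr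
    linarith [abs_nonneg ((b : ℂ).im - t)]
  rw [norm_div, norm_mul, Complex.norm_real, Real.norm_of_nonneg (mu_pos b).le]
  have h1 := gw_le (t := t) (strip b.2)
  calc mu b * ‖gw t b‖ / ‖z - (b : ℂ)‖ ≤
        mu b * (4 / (1 + (t - (b : ℂ).im) ^ 2)) / (z.re / (4 * M)) := by
        have := (mu_pos b).le
        gcongr
    _ = 16 * M / z.re * (mu b / (1 + (t - (b : ℂ).im) ^ 2)) := by
        field_simp
        ring

theorem e1' : S_E1 := by
  obtain ⟨C, hC, h⟩ := z1s
  intro M hM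
  refine ⟨288 * M ^ 3 * C, by positivity, ?_⟩
  intro t y0 x1 ht hy hx1 hCF z hz z' hz'
  have hM0 : 0 < M := by linarith
  have hx : 0 < z.re := lt_of_lt_of_le hy hz.1
  have hx' : 0 < z'.re := lt_of_lt_of_le hy hz'.1
  have hx10 : 0 < x1 := lt_of_lt_of_le hx hz.2.1
  have hne : ∀ u ∈ Kt t y0 x1 M, ∀ b : ℂ, Yz b = 0 → u - b ≠ 0 := by
    intro u hu b hb h0
    have hd := dist_zero hM hy hCF hu hb
    rw [h0, norm_zero] at hd
    have hu0 : 0 < u.re := lt_of_lt_of_le hy hu.1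
    have : 0 < (u.re + |b.im - t|) / (4 * M) := by positivity
    linarith
  have hY : ∀ u ∈ Kt t y0 x1 M, Yz u ≠ 0 := by
    intro u hu h0
    exact hne u hu u h0 (sub_self u)
  have h1 := pfr (hY z hz) (hY z' hz')
  have h2 := (S_summable hM hy hCF hz).hasSum.sub (S_summable hM hy hCF hz').hasSum
  have h3 := h1.sub h2
  have e : (P z - P z') - (S z t - S z' t) = ∑' b : Zr, (mu b : ℂ) *
      ((1 - gw t b) * ((z' - z) / ((z - (b : ℂ)) * (z' - (b : ℂ))))) := by
    refine (h3.congr_fun fun b => ?_).tsum_eq.symm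
    have a1 := hne z hz b b.2
    have a2 := hne z' hz' b b.2
    field_simp
    ring
  rw [e]
  have hdz : ‖z' - z‖ ≤ 3 * M * x1 := by
    have h4 := Complex.norm_le_abs_re_add_abs_im (z' - z)
    rw [Complex.sub_re, Complex.sub_im] at h4
    have h5 : |z'.re - z.re| ≤ x1 := by
      rw [abs_le]
      constructor
      · linarith [hz.2.1]
      · linarith [hz'.2.1]
    have h6 : |z'.im - z.im| ≤ 2 * M * x1 := by
      have e2 : z'.im - z.im = (z'.im - t) - (z.im - t) := by ring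
      rw [e2]
      refine (abs_sub _ _).trans ?_
      have h7 : M * z.re ≤ M * x1 := by
        apply mul_le_mul_of_nonneg_left hz.2.1 hM0.le
      have h8 : M * z'.re ≤ M * x1 := by
        apply mul_le_mul_of_nonneg_left hz'.2.1 hM0.le
      linarith [hz.2.2, hz'.2.2]
    have h7 : x1 ≤ M * x1 := by nlinarith
    linarith
  have hs := ((h t).1.mul_left (96 * M ^ 2 * ‖z' - z‖)).hasSum
  rw [tsum_mul_left] at hs
  refine (tsum_of_norm_bounded hs fun b => ?_).trans ?_
  · rw [norm_mul, Complex.norm_real, Real.norm_of_nonneg (mu_pos b).le]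
    have h4 := mul_le_mul_of_nonneg_left (term_le hM hy hCF hz hz' b.2) (mu_pos b).le
    refine h4.trans (le_of_eq ?_)
    ring
  · have h4 := (h t).2
    rw [abs_of_nonneg (by linarith : (0:ℝ) ≤ t)] at h4
    have h5 : 0 ≤ Real.log (2 + t) := Real.log_nonneg (by linarith)
    calc 96 * M ^ 2 * ‖z' - z‖ * ∑' b : Zr, mu b / (1 + (t - (b : ℂ).im) ^ 2) ≤
          96 * M ^ 2 * ‖z' - z‖ * (C * Real.log (2 + t)) := by gcongr
      _ ≤ 96 * M ^ 2 * (3 * M * x1) * (C * Real.log (2 + t)) := by gcongr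
      _ = 288 * M ^ 3 * C * x1 * Real.log (2 + t) := by ring

theorem e1 (_h : S_Z1) : S_E1 := e1'

end Pool.Agent.H354.HP

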