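import Pool.Agent.H354.HP.Tot

/-!
# HP-EXC: the exceptional zeros
-/

set_option autoImplicit false

namespace Pool.Agent.H354.HP

open Complex MeasureTheory Set Filter Topology
open Pool.Agent.H466.HF Pool.Agent.H466.LD Pool.Agent.H466.HP

/-- the sum over the scales -/
theorem geo {q q0 : ℝ} (h0 : 0 < q0) (hq : q0 ≤ q) (J : ℕ) :
    ∑ j ∈ Finset.range J, (2 : ℝ) ^ j * Real.exp (-(2 ^ j * q)) ≤
      16 / q0 ^ 2 * Real.exp (-(q / 2)) := by
  have h1 : ∀ j ∈ Finset.range J, (2 : ℝ) ^ j * Real.exp (-(2 ^ j * q)) ≤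
      (8 / q0 ^ 2 * Real.exp (-(q / 2))) * (1 / 2) ^ j := by
    intro j _
    have h2 : (1 : ℝ) ≤ 2 ^ j := one_le_pow₀ (by norm_num)
    have h2p : (0 : ℝ) < 2 ^ j := by positivity
    have h3 : q / 2 + 2 ^ j * q0 / 2 ≤ 2 ^ j * q := by
      have h4 : 1 * q ≤ 2 ^ j * q := mul_le_mul_of_nonneg_right h2 (by linarith)
      have h5 : 2 ^ j * q0 ≤ 2 ^ j * q := mul_le_mul_of_nonneg_left hq h2p.le
      linarith
    have h4 : Real.exp (-(2 ^ j * q)) ≤ Real.exp (-(q / 2)) * Real.exp (-(2 ^ j * q0 / 2)) := by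
      rw [← Real.exp_add]
      exact Real.exp_le_exp.2 (by linarith)
    have h5 : Real.exp (-(2 ^ j * q0 / 2)) ≤ 8 / ((2 ^ j) ^ 2 * q0 ^ 2) := by
      have h6 := Real.quadratic_le_exp_of_nonneg (show 0 ≤ (2 : ℝ) ^ j * q0 / 2 by positivity)
      rw [Real.exp_neg, ← one_div, div_le_div_iff₀ (Real.exp_pos _) (by positivity)]
      have h7 : 0 < (2 : ℝ) ^ j * q0 / 2 := by positivity
      nlinarith
    calc (2 : ℝ) ^ j * Real.exp (-(2 ^ j * q))
        ≤ 2 ^ j * (Real.exp (-(q / 2)) * (8 / ((2 ^ j) ^ 2 * q0 ^ 2))) :=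
          mul_le_mul_of_nonneg_left (h4.trans (mul_le_mul_of_nonneg_left h5
            (Real.exp_pos _).le)) h2p.le
      _ = (8 / q0 ^ 2 * Real.exp (-(q / 2))) * (1 / 2) ^ j := by
          rw [one_div, inv_pow]
          field_simp
  refine (Finset.sum_le_sum h1).trans ?_
  rw [← Finset.mul_sum]
  have h2 := sum_geometric_two_le J
  calc (8 / q0 ^ 2 * Real.exp (-(q / 2))) * ∑ i ∈ Finset.range J, (1 / 2 : ℝ) ^ i
      ≤ (8 / q0 ^ 2 * Real.exp (-(q / 2))) * 2 := mul_le_mul_of_nonneg_left h2 (by positivity)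
    _ = _ := by ring

theorem reg_mono {t y0 M κ κ' L : ℝ} (hL : 0 ≤ L) (hκ : κ ≤ κ') (h : Reg1 t y0 M κ L) :
    Reg1 t y0 M κ' L :=
  ⟨h.1, fun z hz => (h.2 z hz).trans (mul_le_mul_of_nonneg_right hκ hL)⟩

theorem exc (h1 : S_REGX) (h2 : S_ZLOC) (h3 : S_CNT) (h4 : S_TOT) (h5 : S_INTQ) : S_EXC := by
  intro ε δ hε hδ
  obtain ⟨κ2, A2, T2, hκ2, hA2, hT2, hz⟩ := h2 ε δ hε hδ
  obtain ⟨κ3, C3, A3, T3, hκ3, hC3, hA3, hT3, hc⟩ := h3 δ hδ
  obtain ⟨C4, T4, hC4, hT4, ht4⟩ := h4 δ hδ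
  obtain ⟨C5, T5, hC5, hT5, hcr⟩ := crude (δ := 2 * δ) (Y := δ) (by positivity) hδ.le
  set κ : ℝ := min κ2 κ3 with hκ
  have hκp : 0 < κ := lt_min hκ2 hκ3
  obtain ⟨CR, cR, TR, hCR, hcR, hTR, hreg⟩ := h1 64 κ (by norm_num) hκp
  set A0 : ℝ := max A2 A3 with hA0
  have hA0p : 0 < A0 := lt_max_of_lt_left hA2
  set q0 : ℝ := cR * A0 / 32 with hq0
  have hq0p : 0 < q0 := by positivity
  set C' : ℝ := 2 * C3 + 4000 * C5 with hC'
  have hC'p : 0 < C' := by positivity
  refine ⟨C4 * Real.exp (cR / 64 * A0) + C' * CR / 32 * (16 / q0 ^ 2), cR / 64,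
    max (max T2 T3) (max T4 (max TR (max (2 * T5) δ))), by positivity, by positivity,
    hT2.trans ((le_max_left _ _).trans (le_max_left _ _)), ?_⟩
  intro T lam hT hlam hl S hS
  have hTT2 : T2 ≤ T := ((le_max_left _ _).trans (le_max_left _ _)).trans hT
  have hTT3 : T3 ≤ T := ((le_max_right _ _).trans (le_max_left _ _)).trans hT
  have hT' := (le_max_right _ _).trans hT
  have hTT4 : T4 ≤ T := (le_max_left _ _).trans hT'
  have hT'' := (le_max_right _ _).trans hT'
  have hTTR : TR ≤ T := (le_max_left _ _).trans hT''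
  have hT''' := (le_max_right _ _).trans hT''
  have hTT5 : 2 * T5 ≤ T := (le_max_left _ _).trans hT'''
  have hTδ : δ ≤ T := (le_max_right _ _).trans hT'''
  have hT10 : 10 ≤ T := hT2.trans hTT2
  have hTp : 0 < T := by linarith
  have hL : 0 < Real.log T := Real.log_pos (by linarith)
  set L := Real.log T with hLdef
  set A : ℝ := lam * L ^ 2 with hA
  have hAp : 0 < A := by positivity
  set m : ℂ → ℝ := fun z => (analyticOrderNatAt (LL gk lam) z : ℝ) with hm
  have hm0 : ∀ z, 0 ≤ m z := fun z => Nat.cast_nonneg _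
  have hq2 : 0 < 16 / q0 ^ 2 := by positivity
  rcases lt_or_ge A A0 with hcase | hcase
  · have h6 := ht4 T lam hTT4 hlam hl S (fun z hz => ⟨(hS z hz).1, (hS z hz).2.1, (hS z hz).2.2.1⟩)
    refine h6.trans ?_
    have h7 : 1 ≤ Real.exp (cR / 64 * A0) * Real.exp (-(cR / 64 * A)) := by
      rw [← Real.exp_add]
      apply Real.one_le_exp
      have : cR / 64 * A ≤ cR / 64 * A0 := mul_le_mul_of_nonneg_left hcase.le (by positivity)
      linarith
    have hTL : 0 < T * L := by positivity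
    calc C4 * (T * L) = C4 * (T * L) * 1 := by ring
      _ ≤ C4 * (T * L) * (Real.exp (cR / 64 * A0) * Real.exp (-(cR / 64 * A))) :=
          mul_le_mul_of_nonneg_left h7 (by positivity)
      _ = C4 * Real.exp (cR / 64 * A0) * (T * L) * Real.exp (-(cR / 64 * A)) := by ring
      _ ≤ _ := by
          apply mul_le_mul_of_nonneg_right _ (Real.exp_pos _).le
          apply mul_le_mul_of_nonneg_right _ hTL.le
          have : 0 < C' * CR / 32 * (16 / q0 ^ 2) := by positivity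
          linarith
  -- the main case
  set Δ : ℝ := lam * L with hΔ
  have hΔp : 0 < Δ := by positivity
  set y : ℕ → ℝ := fun j => 2 ^ j * Δ / 32 with hy
  have hyp : ∀ j, 0 < y j := fun j => by rw [hy]; positivity
  have hys : ∀ j, y (j + 1) = 2 * y j := fun j => by simp only [hy, pow_succ]; ring
  have hyL : ∀ j, y j * L = 2 ^ j * (A / 32) := fun j => by simp only [hy, hΔ, hA]; ring
  have hyge : ∀ j, Δ / 32 ≤ y j := by
    intro j
    have h6 : (1 : ℝ) ≤ 2 ^ j := one_le_pow₀ (by norm_num)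
    have h7 : 1 * Δ ≤ 2 ^ j * Δ := mul_le_mul_of_nonneg_right h6 hΔp.le
    simp only [hy]
    linarith
  have hex : ∃ j, 1 / 1000 < y (j + 1) := by
    obtain ⟨j, hj⟩ := pow_unbounded_of_one_lt (1 / Δ) (one_lt_two (α := ℝ))
    refine ⟨j, ?_⟩
    rw [div_lt_iff₀ hΔp] at hj
    rw [hys]
    simp only [hy]
    linarith
  classical
  set J := Nat.find hex with hJ
  have hJ1 : 1 / 1000 < y (J + 1) := Nat.find_spec hex
  have hJ2 : ∀ j < J, y (j + 1) ≤ 1 / 1000 := fun j hj => not_lt.1 (Nat.find_min hex hj)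
  set Irr : ℕ → Set ℝ := fun j => {t : ℝ | t ∈ Icc (T / 2) (4 * T) ∧ ¬ Reg1 t (y j) 64 κ L}
    with hIrr
  have hA2' : A2 ≤ A := (le_max_left _ _).trans hcase
  have hA3' : A3 ≤ A := (le_max_right _ _).trans hcase
  have hsub : ∀ t : ℝ, ∀ z ∈ S.filter (fun z : ℂ => |z.im - t| ≤ Δ / 2),
      z ∈ S ∧ |z.im - t| ≤ Δ / 2 := fun t z hz => by
    rw [Finset.mem_filter] at hz
    exact hz
  -- regular points at the smallest scale
  have hN0 : ∀ t ∈ Icc (T / 2) (4 * T), t ∉ Irr 0 →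
      ∑ z ∈ S with |z.im - t| ≤ Δ / 2, m z ≤ 0 := by
    intro t ht hi
    have hr : Reg1 t (y 0) 64 κ L := by
      by_contra hcon
      exact hi ⟨ht, hcon⟩
    have he : S.filter (fun z : ℂ => |z.im - t| ≤ Δ / 2) = ∅ := by
      rw [Finset.eq_empty_iff_forall_notMem]
      intro z hz'
      obtain ⟨g1, g2⟩ := hsub t z hz'
      obtain ⟨g3, -, -, g4⟩ := hS z g1
      exact g4 (hz T t (y 0) lam hTT2 ht.1 ht.2 (hyp 0) (reg_mono hL.le (min_le_left _ _) hr)
        hlam hA2' hl (by simp only [hy]; linarith) z g3 g2)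
    rw [he, Finset.sum_empty]
  -- regular points at a larger scale
  have hN1 : ∀ t ∈ Icc (T / 2) (4 * T), ∀ j < J, t ∉ Irr (j + 1) →
      ∑ z ∈ S with |z.im - t| ≤ Δ / 2, m z ≤ C' * (y j * L) := by
    intro t ht j hj hi
    have hr : Reg1 t (y (j + 1)) 64 κ L := by
      by_contra hcon
      exact hi ⟨ht, hcon⟩
    have h6 := hc T t (y (j + 1)) lam hTT3 ht.1 ht.2 (hJ2 j hj)
      (reg_mono hL.le (min_le_right _ _) hr) hlam hA3' hl (by
        have := hyge (j + 1)
        linarith) (S.filter fun z : ℂ => |z.im - t| ≤ Δ / 2) (by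
        intro z hz'
        obtain ⟨g1, g2⟩ := hsub t z hz'
        exact ⟨(hS z g1).1, by linarith⟩)
    refine h6.trans ?_
    rw [hys]
    have h7 : 0 < y j * L := mul_pos (hyp j) hL
    have h8 : 2 * C3 * (y j * L) ≤ C' * (y j * L) :=
      mul_le_mul_of_nonneg_right (by rw [hC']; linarith) h7.le
    calc C3 * (2 * y j * L) = 2 * C3 * (y j * L) := by ring
      _ ≤ _ := h8
  -- all points
  have hN2 : ∀ t ∈ Icc (T / 2) (4 * T),
      ∑ z ∈ S with |z.im - t| ≤ Δ / 2, m z ≤ C' * (y J * L) := by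
    intro t ht
    have ht0 : 0 < t := by linarith [ht.1]
    have hlog : Real.log t ≤ 2 * L := log_le_two hT10 ht0 ht.2
    have h6 := hcr t t lam (by linarith [ht.1]) le_rfl (by linarith) hlam (by
      have h7 : lam * Real.log t ≤ lam * (2 * L) := mul_le_mul_of_nonneg_left hlog hlam.le
      have h8 : lam * (2 * L) = 2 * Δ := by rw [hΔ]; ring
      linarith) (S.filter fun z : ℂ => |z.im - t| ≤ Δ / 2) (by
      intro z hz'
      obtain ⟨g1, g2⟩ := hsub t z hz'
      exact ⟨(hS z g1).1, Pool.Agent.H466.HP.strip lam z hlam (hS z g1).1, by linarith⟩)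
    refine h6.trans ?_
    have h7 : C5 * Real.log t ≤ C5 * (2 * L) := mul_le_mul_of_nonneg_left hlog hC5.le
    have h8 : 1 ≤ 2000 * y J := by rw [hys] at hJ1; linarith
    have h9 : C5 * (2 * L) * 1 ≤ C5 * (2 * L) * (2000 * y J) :=
      mul_le_mul_of_nonneg_left h8 (by positivity)
    have h10 : 0 < y J * L := mul_pos (hyp J) hL
    have h11 : 4000 * C5 * (y J * L) ≤ C' * (y J * L) :=
      mul_le_mul_of_nonneg_right (by rw [hC']; linarith) h10.le
    linarith
  have hfin := h5 ℂ S m (fun z => z.im) (J + 1) Irr (fun j => C' * (y j * L))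
    (fun j => CR * T * Real.exp (-(cR * y j * L))) (T / 2) (4 * T) (Δ / 2) (by linarith)
    (by positivity) (by
      intro z hz'
      obtain ⟨-, g1, g2, -⟩ := hS z hz'
      exact ⟨hm0 z, by linarith, by linarith⟩) (by
      intro j
      have := hyp j
      exact ⟨by positivity, by positivity⟩) (by
      intro j _
      exact (hreg T hTTR).1 (y j) (hyp j)) (by
      intro t ht hi
      exact hN0 t ht (hi 0 (Finset.mem_range.2 (Nat.succ_pos J)))) (by
      intro t ht j0 hj0 hti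
      have hyj : ∀ j, 0 ≤ C' * (y j * L) := fun j => by
        have := hyp j
        positivity
      by_cases h0 : t ∈ Irr 0
      · by_cases hall : ∃ j < J, t ∈ Irr j ∧ t ∉ Irr (j + 1)
        · obtain ⟨j, hj, g1, g2⟩ := hall
          exact ⟨j, Finset.mem_range.2 (by omega), g1, hN1 t ht j hj g2⟩
        · push Not at hall
          have hind : ∀ j ≤ J, t ∈ Irr j := by
            intro j
            induction j with
            | zero => intro _; exact h0
            | succ j ih => intro hj; exact hall j (by omega) (ih (by omega))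
          exact ⟨J, Finset.mem_range.2 (Nat.lt_succ_self J), hind J le_rfl, hN2 t ht⟩
      · exact ⟨j0, hj0, hti, (hN0 t ht h0).trans (hyj j0)⟩)
  have hgeo := geo (q := cR * A / 32) hq0p (by
    rw [hq0]
    have : cR * A0 ≤ cR * A := mul_le_mul_of_nonneg_left hcase hcR.le
    linarith) (J + 1)
  have hsum : ∑ j ∈ Finset.range (J + 1), C' * (y j * L) * (CR * T * Real.exp (-(cR * y j * L))) =
      Δ * ((C' * CR / 32 * (T * L)) *
        ∑ j ∈ Finset.range (J + 1), (2 : ℝ) ^ j * Real.exp (-(2 ^ j * (cR * A / 32)))) := by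
    rw [Finset.mul_sum, Finset.mul_sum]
    refine Finset.sum_congr rfl fun j _ => ?_
    have e1 : cR * y j * L = 2 ^ j * (cR * A / 32) := by
      have := hyL j
      linear_combination cR * this
    rw [e1]
    simp only [hy]
    ring
  rw [hsum] at hfin
  have h6 : Δ * ∑ z ∈ S, m z ≤ Δ * ((C' * CR / 32 * (T * L)) *
        ∑ j ∈ Finset.range (J + 1), (2 : ℝ) ^ j * Real.exp (-(2 ^ j * (cR * A / 32)))) := by
    have e2 : 2 * (Δ / 2) * ∑ z ∈ S, m z = Δ * ∑ z ∈ S, m z := by ring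
    rw [← e2]
    exact hfin
  have h7 := le_of_mul_le_mul_left h6 hΔp
  refine h7.trans ?_
  have h8 : (C' * CR / 32 * (T * L)) *
      ∑ j ∈ Finset.range (J + 1), (2 : ℝ) ^ j * Real.exp (-(2 ^ j * (cR * A / 32))) ≤
      (C' * CR / 32 * (T * L)) * (16 / q0 ^ 2 * Real.exp (-(cR * A / 32 / 2))) :=
    mul_le_mul_of_nonneg_left hgeo (by positivity)
  refine h8.trans ?_
  have e3 : cR * A / 32 / 2 = cR / 64 * A := by ring
  rw [e3]
  have h9 : 0 ≤ C4 * Real.exp (cR / 64 * A0) * (T * L) * Real.exp (-(cR / 64 * A)) := by positivity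
  have h10 : (C' * CR / 32 * (T * L)) * (16 / q0 ^ 2 * Real.exp (-(cR / 64 * A))) =
      C' * CR / 32 * (16 / q0 ^ 2) * (T * L) * Real.exp (-(cR / 64 * A)) := by ring
  rw [h10]
  nlinarith

end Pool.Agent.H354.HP
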