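import Pool.Agent.H466.HP.Stm4

/-!
# HP-TOT: the total number of zeros of the heat flow, crudely
-/

set_option autoImplicit false

namespace Pool.Agent.H354.HP

open Complex MeasureTheory Set Filter Topology
open Pool.Agent.H466.HF Pool.Agent.H466.LD Pool.Agent.H466.HP

theorem log_le_two {T t : ℝ} (hT : 10 ≤ T) (ht0 : 0 < t) (ht : t ≤ 4 * T) :
    Real.log t ≤ 2 * Real.log T := by
  have h1 : Real.log t ≤ Real.log (T ^ 2) := Real.log_le_log ht0 (by nlinarith)
  rw [Real.log_pow] at h1
  push_cast at h1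
  exact h1

theorem tot : S_TOT := by
  intro δ hδ
  obtain ⟨C, T0, hC, hT0, hcr⟩ := crude (δ := 2 * δ) (Y := 1) (by positivity) zero_le_one
  refine ⟨2 * C, T0 + 1, by positivity, by linarith, ?_⟩
  intro T lam hT hlam hl S hS
  have hT10 : 10 ≤ T := by linarith
  have hlogT : 0 < Real.log T := Real.log_pos (by linarith)
  have key : ∀ t ∈ Icc (T - 1) (2 * T + 1), ∑ z ∈ S with |z.im - t| ≤ 1,
      (analyticOrderNatAt (LL gk lam) z : ℝ) ≤ 2 * C * Real.log T := by
    intro t ht
    have ht0 : 0 < t := by linarith [ht.1]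
    have hlog : Real.log t ≤ 2 * Real.log T := log_le_two hT10 ht0 (by linarith [ht.2])
    have h1 := hcr t t lam (by linarith [ht.1]) le_rfl (by linarith) hlam (by
      have h2 : lam * Real.log t ≤ lam * (2 * Real.log T) :=
        mul_le_mul_of_nonneg_left hlog hlam.le
      linarith) (S.filter fun z => |z.im - t| ≤ 1) (by
      intro z hz
      rw [Finset.mem_filter] at hz
      exact ⟨(hS z hz.1).1, Pool.Agent.H466.HP.strip lam z hlam (hS z hz.1).1, hz.2⟩)
    refine h1.trans ?_
    have h3 : C * Real.log t ≤ C * (2 * Real.log T) := mul_le_mul_of_nonneg_left hlog hC.le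
    linarith
  have h2 := intcnt ℂ S (fun z => (analyticOrderNatAt (LL gk lam) z : ℝ)) (fun z => z.im) ∅
    (T - 1) (2 * T + 1) 1 (2 * C * Real.log T) (2 * C * Real.log T) 0 (by linarith) one_pos
    (by positivity) (by positivity) le_rfl (by
      intro z hz
      obtain ⟨-, h3, h4⟩ := hS z hz
      exact ⟨Nat.cast_nonneg _, by linarith, by linarith⟩) (by simp)
    (fun t ht _ => key t ht) key
  have h5 : 2 * C * Real.log T * (2 * T + 1 - (T - 1)) ≤ 2 * C * Real.log T * (2 * T) :=
    mul_le_mul_of_nonneg_left (by linarith) (by positivity)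
  nlinarith

end Pool.Agent.H354.HP
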